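import Pool.Agent.U762.GA.Stm

/-!
# Project GA, package ETA: continuity in the perturbation parameter
-/

set_option autoImplicit false

namespace Pool.Agent.U375.GA

open Finset MeasureTheory Filter Pool.Agent.U762.RP Pool.Agent.U762.GA
open scoped Topology

theorem t_ETA : S_ETA := by
  intro d m hd hm θ lam ε hθ hε hε1 h1 h2
  have hc : ∀ j : ℕ, Continuous fun η : ℝ => fac d m η j ^ θ := by
    intro j
    unfold fac
    exact (continuous_const.mul (continuous_const.add continuous_id)).rpow_const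
      fun _ => Or.inr hθ.le
  have h0 : ∀ j : ℕ, fac d m 0 j = (m (j : ℤ) : ℝ) / d := by
    intro j
    unfold fac
    rw [add_zero, mul_one]
  have e1 : ∀ᶠ η : ℝ in 𝓝 0, (∑ j ∈ range d, fac d m η j ^ θ) / d < lam := by
    have hcont : Continuous fun η : ℝ => (∑ j ∈ range d, fac d m η j ^ θ) / d :=
      (continuous_finsetSum _ fun j _ => hc j).div_const _
    refine (hcont.tendsto 0).eventually_lt_const ?_
    simp only [h0]
    exact h1
  have e2 : ∀ᶠ η : ℝ in 𝓝 0, ∀ j ∈ range d, (1 - ε) * fac d m η j ^ θ < lam := by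
    refine (Filter.eventually_all_finset _).2 fun j hj => ?_
    have hcont : Continuous fun η : ℝ => (1 - ε) * fac d m η j ^ θ := continuous_const.mul (hc j)
    refine (hcont.tendsto 0).eventually_lt_const ?_
    simp only [h0]
    exact h2 j hj
  have e3 : ∀ᶠ η : ℝ in 𝓝[>] 0, (∑ j ∈ range d, fac d m η j ^ θ) / d < lam ∧
      ∀ j ∈ range d, (1 - ε) * fac d m η j ^ θ < lam :=
    (e1.and e2).filter_mono nhdsWithin_le_nhds
  obtain ⟨η, h3, h4⟩ := (e3.and self_mem_nhdsWithin).exists
  exact ⟨η, h4, h3.1, h3.2⟩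

end Pool.Agent.U375.GA
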